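import Mathlib
import Pool.Agent.Q186.SM.OneF

/-!
# The structure vector `ξ = -JN` in a `(κ, μ, ν)_i`-nullity distribution

Real hypersurfaces with this property exist exactly for `m = 1`.

The ambient spaces, the Levi-Civita connection, the curvature tensor and real hypersurfaces are
defined in `Pool.Agent.Q186.SM.Conn` and `Pool.Agent.Q186.SM.GrDef`, the nullity condition
`XiInNullity` in `Pool.Agent.Q186.SM.XiDef`.
-/

namespace Pool.Agent.Results.MP_f74330_gt.ExistsIffOne

open Q186.SM

/-- (1) For `m = 1` and every scaling `c > 0` of the metric there are a real hypersurface `M` of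
`SU(2,1)/S(U(2)×U(1))` and a smooth global orthonormal frame `b` of the quaternionic structure
along `M` such that `ξ = -JN` lies in the `(κ, μ, ν)_1`-nullity distribution with the constants
`κ = 1/(2c)`, `μ = ν = 0`.
(2) For `m ≥ 2` no real hypersurface (not even a small piece of one) of `G_2(ℂ^{m+2})` (`ε = 1`)
or of `SU(2,m)/S(U(2)×U(m))` (`ε = -1`), with any scaling `c > 0` of the metric, any frame of the
quaternionic structure, any index `i` and any functions `κ, μ, ν` has this property. -/
theorem result :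
    (∀ c : ℝ, 0 < c → ∃ (M : RealHypersurface (-1) c 1) (b : Dom 1 → Fin 3 → Mat 1),
      IsFrame M b ∧ SmoothFrame M b ∧
        XiInNullity M b 0 (fun _ => 1 / (2 * c)) (fun _ => 0) (fun _ => 0)) ∧
    (∀ m : ℕ, 2 ≤ m → ∀ ε c : ℝ, (ε = 1 ∨ ε = -1) → 0 < c → ∀ M : RealHypersurface ε c m,
      ¬ ∃ (b : Dom m → Fin 3 → Mat m) (i : Fin 3) (κ μ ν : Dom m → ℝ),
        IsFrame M b ∧ XiInNullity M b i κ μ ν) := by
  refine ⟨fun c hc => ⟨Horo.horo c hc, Horo.bf, Horo.exists_one c hc⟩, ?_⟩
  rintro m hm ε c hε hc M ⟨b, i, κ, μ, ν, hb, h⟩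
  exact none_big hm hε hc M b hb i κ μ ν h

end Pool.Agent.Results.MP_f74330_gt.ExistsIffOne
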